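import Pool.Agent.Lib.MP_236c69_co.Core

set_option autoImplicit false
set_option linter.unusedVariables false
set_option linter.unusedSimpArgs false
set_option linter.unusedTactic false
set_option linter.unusedSectionVars false

open scoped Pointwise

namespace Pool.Agent.Results.MP_236c69_co.FacetSwap

universe u v

/-- The group `𝒞ₛ = {1, s}` of order two. -/
abbrev Cs := Multiplicative (ZMod 2)

/-- The nontrivial element `s` of `𝒞ₛ`. -/
def sElt : Cs := Multiplicative.ofAdd 1

section definitions

variable {E : Type*} [NormedAddCommGroup E] [NormedSpace ℝ E] {V : Type u}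

/-- `P` is a centrally symmetric convex quadrilateral: the convex hull of four points
`a, b, -a, -b` with `a, b` linearly independent. -/
def IsSymQuadrilateral (P : Set E) : Prop :=
  ∃ a b : E, LinearIndependent ℝ ![a, b] ∧ P = convexHull ℝ {a, b, -a, -b}

/-- `F` is a facet (edge) of the polygon `P`: an exposed face of `P` of dimension one. -/
def IsFacet (P F : Set E) : Prop :=
  IsExposed ℝ P F ∧ Module.finrank ℝ (vectorSpan ℝ F) = 1

/-- The cone over the relative interior of `F`: all positive multiples of relative interior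
points. -/
def ConeRelInt (F : Set E) : Set E :=
  {x | ∃ r : ℝ, 0 < r ∧ ∃ y ∈ intrinsicInterior ℝ F, x = r • y}

/-- `(G, p)` is well-positioned. -/
def WellPositioned (P : Set E) (G : SimpleGraph V) (p : V → E) : Prop :=
  ∀ v w, G.Adj v w → ∃ F, IsFacet P F ∧ p v - p w ∈ ConeRelInt F

/-- `u` is an infinitesimal flex of `(G, p)`: for every edge `vw` and the facet `F` of `P` whose
open cone contains `p v - p w`, the linear functional `φ` equal to `1` on `F` satisfies
`φ (u v - u w) = 0`. -/
def IsFlex (P : Set E) (G : SimpleGraph V) (p u : V → E) : Prop :=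
  ∀ v w, G.Adj v w → ∀ F, IsFacet P F → p v - p w ∈ ConeRelInt F →
    ∀ φ : E →ₗ[ℝ] ℝ, (∀ x ∈ F, φ x = 1) → φ (u v - u w) = 0

/-- `(G, p)` is infinitesimally rigid: it is well-positioned and every infinitesimal flex is
constant. -/
def InfRigid (P : Set E) (G : SimpleGraph V) (p : V → E) : Prop :=
  WellPositioned P G p ∧ ∀ u : V → E, IsFlex P G p u → ∃ c : E, ∀ v, u v = c

/-- `(G, p)` is isostatic: it is infinitesimally rigid and deleting any edge destroys this. -/
def Isostatic (P : Set E) (G : SimpleGraph V) (p : V → E) : Prop :=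
  InfRigid P G p ∧ ∀ e ∈ G.edgeSet, ¬ InfRigid P (G.deleteEdges {e}) p

/-- `G` is `(2,2)`-tight. -/
def IsTwoTwoTight (G : SimpleGraph V) : Prop :=
  G.edgeSet.ncard + 2 = 2 * Nat.card V ∧
    ∀ H : G.Subgraph, H.verts.Nonempty → H.edgeSet.ncard + 2 ≤ 2 * H.verts.ncard

/-- The set `E_s` of edges fixed by `s`. -/
def fixedEdges (G : SimpleGraph V) (θ : Cs →* (G ≃g G)) : Set (Sym2 V) :=
  {e | e ∈ G.edgeSet ∧ Sym2.map (θ sElt) e = e}

/-- The linear map is a linear reflection `y ↦ y - f y • x` with `f x = 2`. -/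
def IsLinearReflection (T : E →ₗ[ℝ] E) : Prop :=
  ∃ (x : E) (f : E →ₗ[ℝ] ℝ), f x = 2 ∧ ∀ y, T y = y - f y • x

/-- `T` preserves the facets of `P`, that is, `T F ∈ {F, -F}` for every facet `F`. -/
def PreservesFacets (P : Set E) (T : E →ₗ[ℝ] E) : Prop :=
  ∀ F, IsFacet P F → T '' F = F ∨ T '' F = -F

/-- `(G, p)` is `𝒞ₛ`-symmetric with respect to `θ` and `τ`. -/
def IsCsSymmetric (G : SimpleGraph V) (θ : Cs →* (G ≃g G)) (τ : Representation ℝ Cs E)
    (p : V → E) : Prop :=
  ∀ v, p (θ sElt v) = τ sElt (p v)

end definitions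

section geometry

variable {Plane : Type v} [NormedAddCommGroup Plane] [NormedSpace ℝ Plane]
  [FiniteDimensional ℝ Plane] {a b : Plane} {lam mu : Plane →ₗ[ℝ] ℝ}

/-- coordinate data -/
structure Coord (a b : Plane) (lam mu : Plane →ₗ[ℝ] ℝ) : Prop where
  la : lam a = 1
  lb : lam b = 0
  ma : mu a = 0
  mb : mu b = 1
  dec : ∀ x, x = lam x • a + mu x • b

lemma exists_coord (h2 : Module.finrank ℝ Plane = 2) (h : LinearIndependent ℝ ![a, b]) :
    ∃ lam mu, Coord a b lam mu := by
  have hc : Fintype.card (Fin 2) = Module.finrank ℝ Plane := by simp [h2]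
  let B := basisOfLinearIndependentOfCardEqFinrank h hc
  have hB0 : B 0 = a := by simp [B]
  have hB1 : B 1 = b := by simp [B]
  refine ⟨B.coord 0, B.coord 1, ?_, ?_, ?_, ?_, ?_⟩
  · rw [← hB0]; simp
  · rw [← hB1]; simp
  · rw [← hB0]; simp
  · rw [← hB1]; simp
  · intro x
    have := B.sum_repr x
    rw [Fin.sum_univ_two, hB0, hB1] at this
    simpa using this.symm

lemma Coord.habs (h : Coord a b lam mu) {x : Plane} (hx : x ∈ convexHull ℝ {a, b, -a, -b}) :
    |lam x| + |mu x| ≤ 1 := by
  have hconv : Convex ℝ {x : Plane | |lam x| + |mu x| ≤ 1} := by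
    intro x hx y hy s t hs ht hst
    simp only [Set.mem_ofPred_eq] at hx hy ⊢
    rw [map_add, map_add, map_smul, map_smul, map_smul, map_smul]
    simp only [smul_eq_mul]
    have h1 := abs_add_le (s * lam x) (t * lam y)
    have h2 := abs_add_le (s * mu x) (t * mu y)
    rw [abs_mul, abs_mul, abs_of_nonneg hs, abs_of_nonneg ht] at h1 h2
    have h3 := mul_le_mul_of_nonneg_left hx hs
    have h4 := mul_le_mul_of_nonneg_left hy ht
    nlinarith
  have hsub : ({a, b, -a, -b} : Set Plane) ⊆ {x : Plane | |lam x| + |mu x| ≤ 1} := by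
    intro x hx
    simp only [Set.mem_insert_iff, Set.mem_singleton_iff] at hx
    rcases hx with rfl | rfl | rfl | rfl <;> simp [h.la, h.lb, h.ma, h.mb]
  exact convexHull_min hsub hconv hx

lemma Coord.mem_segment (h : Coord a b lam mu) {x : Plane} (h1 : 0 ≤ lam x) (h2 : 0 ≤ mu x)
    (h3 : lam x + mu x = 1) : x ∈ segment ℝ a b :=
  ⟨lam x, mu x, h1, h2, h3, (h.dec x).symm⟩

lemma Coord.of_segment (h : Coord a b lam mu) {x : Plane} (hx : x ∈ segment ℝ a b) :
    0 ≤ lam x ∧ 0 ≤ mu x ∧ lam x + mu x = 1 := by
  obtain ⟨s, t, hs, ht, hst, rfl⟩ := hx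
  simp [h.la, h.lb, h.ma, h.mb, hs, ht, hst]

/-- change of signs -/
lemma Coord.neg_left (h : Coord a b lam mu) : Coord (-a) b (-lam) mu := by
  refine ⟨?_, ?_, ?_, ?_, ?_⟩
  · simp [h.la]
  · simp [h.lb]
  · simp [h.ma]
  · simp [h.mb]
  · intro x
    simpa using h.dec x

lemma Coord.neg_right (h : Coord a b lam mu) : Coord a (-b) lam (-mu) := by
  refine ⟨?_, ?_, ?_, ?_, ?_⟩
  · simp [h.la]
  · simp [h.lb]
  · simp [h.ma]
  · simp [h.mb]
  · intro x
    simpa using h.dec x

lemma Coord.swap (h : Coord a b lam mu) : Coord b a mu lam := by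
  refine ⟨h.mb, h.ma, h.lb, h.la, ?_⟩
  intro x
  rw [add_comm]
  exact h.dec x

lemma hull_neg_left : convexHull ℝ ({-a, b, -(-a), -b} : Set Plane) =
    convexHull ℝ {a, b, -a, -b} := by
  congr 1
  ext x
  simp only [Set.mem_insert_iff, Set.mem_singleton_iff, neg_neg]
  tauto

lemma hull_neg_right : convexHull ℝ ({a, -b, -a, -(-b)} : Set Plane) =
    convexHull ℝ {a, b, -a, -b} := by
  congr 1
  ext x
  simp only [Set.mem_insert_iff, Set.mem_singleton_iff, neg_neg]
  tauto

lemma hull_swap : convexHull ℝ ({b, a, -b, -a} : Set Plane) =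
    convexHull ℝ {a, b, -a, -b} := by
  congr 1
  ext x
  simp only [Set.mem_insert_iff, Set.mem_singleton_iff]
  tauto

lemma Coord.finrank_segment (h : Coord a b lam mu) :
    Module.finrank ℝ (vectorSpan ℝ (segment ℝ a b)) = 1 := by
  have h1 : vectorSpan ℝ (segment ℝ a b) = vectorSpan ℝ ({a, b} : Set Plane) := by
    rw [← direction_affineSpan, ← direction_affineSpan, ← convexHull_pair, affineSpan_convexHull]
  rw [h1, vectorSpan_pair]
  apply finrank_span_singleton
  intro h0
  have := congrArg lam h0
  simp [h.la, h.lb] at this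

/-- the segment `[a, b]` is a facet -/
lemma Coord.isFacet (h : Coord a b lam mu) :
    IsFacet (convexHull ℝ {a, b, -a, -b}) (segment ℝ a b) := by
  refine ⟨?_, h.finrank_segment⟩
  intro _
  refine ⟨LinearMap.toContinuousLinearMap (lam + mu), ?_⟩
  have hP : ∀ y ∈ convexHull ℝ ({a, b, -a, -b} : Set Plane), lam y + mu y ≤ 1 := by
    intro y hy
    have := h.habs hy
    have h1 := le_abs_self (lam y)
    have h2 := le_abs_self (mu y)
    linarith
  have ha : a ∈ convexHull ℝ ({a, b, -a, -b} : Set Plane) := subset_convexHull _ _ (by simp)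
  have hb : b ∈ convexHull ℝ ({a, b, -a, -b} : Set Plane) := subset_convexHull _ _ (by simp)
  ext x
  simp only [Set.mem_ofPred_eq, LinearMap.coe_toContinuousLinearMap', LinearMap.add_apply]
  constructor
  · intro hx
    refine ⟨(convex_convexHull ℝ _).segment_subset ha hb hx, ?_⟩
    intro y hy
    rw [(h.of_segment hx).2.2]
    exact hP y hy
  · rintro ⟨hx, hmax⟩
    have h1 := hmax a ha
    rw [h.la, h.ma] at h1
    have h2 := h.habs hx
    have h3 := le_abs_self (lam x)
    have h4 := le_abs_self (mu x)
    have h5 := neg_abs_le (lam x)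
    have h6 := neg_abs_le (mu x)
    apply h.mem_segment
    · rw [← abs_eq_self]
      linarith
    · rw [← abs_eq_self]
      linarith
    · linarith

/-- classification of the facets -/
lemma Coord.facet_cases (h : Coord a b lam mu) {F : Set Plane}
    (hF : IsFacet (convexHull ℝ {a, b, -a, -b}) F) :
    F = segment ℝ a b ∨ F = segment ℝ (-a) (-b) ∨ F = segment ℝ a (-b) ∨ F = segment ℝ (-a) b := by
  obtain ⟨hexp, hdim⟩ := hF
  have hne : F.Nonempty := by
    by_contra hcon
    rw [Set.not_nonempty_iff_eq_empty] at hcon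
    rw [hcon, vectorSpan_empty, finrank_bot] at hdim
    omega
  obtain ⟨l, hl⟩ := hexp hne
  have mem : ∀ c : Plane, (c = a ∨ c = b ∨ c = -a ∨ c = -b) →
      c ∈ convexHull ℝ ({a, b, -a, -b} : Set Plane) := by
    intro c hc
    apply subset_convexHull
    simpa using hc
  have ldec : ∀ x, l x = lam x * l a + mu x * l b := by
    intro x
    conv_lhs => rw [h.dec x]
    simp
  have hmem : ∀ x, x ∈ F ↔ x ∈ convexHull ℝ ({a, b, -a, -b} : Set Plane) ∧
      ∀ y ∈ convexHull ℝ ({a, b, -a, -b} : Set Plane), l y ≤ l x := by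
    intro x
    rw [hl]
    exact Iff.rfl
  have hx1 : ∀ x ∈ F, |l a| ≤ l x ∧ |l b| ≤ l x ∧ |lam x| + |mu x| ≤ 1 := by
    intro x hx
    rw [hmem] at hx
    have h1 := hx.2 a (mem a (by simp))
    have h2 := hx.2 b (mem b (by simp))
    have h3 := hx.2 (-a) (mem (-a) (by simp))
    have h4 := hx.2 (-b) (mem (-b) (by simp))
    rw [map_neg] at h3 h4
    exact ⟨abs_le.2 ⟨by linarith, h1⟩, abs_le.2 ⟨by linarith, h2⟩, h.habs hx.1⟩
  have hbound : ∀ x, l x ≤ |lam x| * |l a| + |mu x| * |l b| := by
    intro x
    rw [ldec, ← abs_mul, ← abs_mul]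
    exact add_le_add (le_abs_self _) (le_abs_self _)
  have single : ∀ c : Plane, (∀ x ∈ F, x = c) → False := by
    intro c hc
    have hs : F.Subsingleton := fun x hx y hy => (hc x hx).trans (hc y hy).symm
    rw [vectorSpan_of_subsingleton ℝ hs] at hdim
    simp at hdim
  -- the values at `a` and `b` have the same absolute value
  have hab : |l a| = |l b| := by
    by_contra hcon
    rcases lt_or_gt_of_ne hcon with hlt | hgt
    · -- only `± b`
      have hb0 : 0 < |l b| := lt_of_le_of_lt (abs_nonneg _) hlt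
      have key : ∀ x ∈ F, |lam x| = 0 ∧ |mu x| = 1 ∧ mu x * l b = |l b| := by
        intro x hx
        obtain ⟨h1, h2, h3⟩ := hx1 x hx
        have h4 := hbound x
        have e1 : |lam x| = 0 := by
          by_contra hne0
          have hpos : 0 < |lam x| := lt_of_le_of_ne (abs_nonneg _) (Ne.symm hne0)
          nlinarith [abs_nonneg (mu x), mul_lt_mul_of_pos_left hlt hpos,
            mul_le_mul_of_nonneg_right h3 hb0.le]
        have e2 : |mu x| = 1 := by
          rw [e1] at h3 h4
          have h6 : |l b| ≤ |mu x| * |l b| := by linarith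
          have h7 : 1 ≤ |mu x| := by
            by_contra h8
            push Not at h8
            nlinarith
          linarith
        refine ⟨e1, e2, ?_⟩
        have e3 : lam x = 0 := abs_eq_zero.1 e1
        have h5 := ldec x
        rw [e3] at h5
        have h6 : mu x * l b ≤ |mu x * l b| := le_abs_self _
        rw [abs_mul, e2] at h6
        linarith
      rcases le_total 0 (l b) with hs | hs
      · apply single b
        intro x hx
        obtain ⟨e1, e2, e3⟩ := key x hx
        rw [abs_of_nonneg hs] at e3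
        have hlb : 0 < l b := by rwa [abs_of_nonneg hs] at hb0
        have hmu : mu x = 1 := by
          have : (mu x - 1) * l b = 0 := by linarith
          rcases mul_eq_zero.1 this with h' | h'
          · linarith
          · linarith
        rw [h.dec x, abs_eq_zero.1 e1, hmu]
        simp
      · apply single (-b)
        intro x hx
        obtain ⟨e1, e2, e3⟩ := key x hx
        rw [abs_of_nonpos hs] at e3
        have hlb : 0 < - l b := by rwa [abs_of_nonpos hs] at hb0
        have hmu : mu x = -1 := by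
          have : (mu x + 1) * l b = 0 := by linarith
          rcases mul_eq_zero.1 this with h' | h'
          · linarith
          · linarith
        rw [h.dec x, abs_eq_zero.1 e1, hmu]
        simp
    · have ha0 : 0 < |l a| := lt_of_le_of_lt (abs_nonneg _) hgt
      have key : ∀ x ∈ F, |mu x| = 0 ∧ |lam x| = 1 ∧ lam x * l a = |l a| := by
        intro x hx
        obtain ⟨h1, h2, h3⟩ := hx1 x hx
        have h4 := hbound x
        have e1 : |mu x| = 0 := by
          by_contra hne0
          have hpos : 0 < |mu x| := lt_of_le_of_ne (abs_nonneg _) (Ne.symm hne0)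
          nlinarith [abs_nonneg (lam x), mul_lt_mul_of_pos_left hgt hpos,
            mul_le_mul_of_nonneg_right h3 ha0.le]
        have e2 : |lam x| = 1 := by
          rw [e1] at h3 h4
          have h6 : |l a| ≤ |lam x| * |l a| := by linarith
          have h7 : 1 ≤ |lam x| := by
            by_contra h8
            push Not at h8
            nlinarith
          linarith
        refine ⟨e1, e2, ?_⟩
        have e3 : mu x = 0 := abs_eq_zero.1 e1
        have h5 := ldec x
        rw [e3] at h5
        have h6 : lam x * l a ≤ |lam x * l a| := le_abs_self _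
        rw [abs_mul, e2] at h6
        linarith
      rcases le_total 0 (l a) with hs | hs
      · apply single a
        intro x hx
        obtain ⟨e1, e2, e3⟩ := key x hx
        rw [abs_of_nonneg hs] at e3
        have hla : 0 < l a := by rwa [abs_of_nonneg hs] at ha0
        have hmu : lam x = 1 := by
          have : (lam x - 1) * l a = 0 := by linarith
          rcases mul_eq_zero.1 this with h' | h'
          · linarith
          · linarith
        rw [h.dec x, abs_eq_zero.1 e1, hmu]
        simp
      · apply single (-a)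
        intro x hx
        obtain ⟨e1, e2, e3⟩ := key x hx
        rw [abs_of_nonpos hs] at e3
        have hla : 0 < - l a := by rwa [abs_of_nonpos hs] at ha0
        have hmu : lam x = -1 := by
          have : (lam x + 1) * l a = 0 := by linarith
          rcases mul_eq_zero.1 this with h' | h'
          · linarith
          · linarith
        rw [h.dec x, abs_eq_zero.1 e1, hmu]
        simp
  have hpos : 0 < |l a| := by
    by_contra hcon
    have h0 : |l a| = 0 := le_antisymm (not_lt.1 hcon) (abs_nonneg _)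
    have hla : l a = 0 := abs_eq_zero.1 h0
    have hlb : l b = 0 := by rw [h0] at hab; exact abs_eq_zero.1 hab.symm
    have hl0 : ∀ x, l x = 0 := by
      intro x
      rw [ldec, hla, hlb]
      ring
    have hFP : ∀ c : Plane, (c = a ∨ c = b ∨ c = -a ∨ c = -b) → c ∈ F := by
      intro c hc
      rw [hmem]
      refine ⟨mem c hc, ?_⟩
      intro y _
      rw [hl0, hl0]
    have t1 : (a - b) ∈ vectorSpan ℝ F :=
      vsub_mem_vectorSpan ℝ (hFP a (by simp)) (hFP b (by simp))
    have t2 : (a - -b) ∈ vectorSpan ℝ F :=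
      vsub_mem_vectorSpan ℝ (hFP a (by simp)) (hFP (-b) (by simp))
    obtain ⟨v, -, hv⟩ := finrank_eq_one_iff'.1 hdim
    obtain ⟨c1, hc1⟩ := hv ⟨_, t1⟩
    obtain ⟨c2, hc2⟩ := hv ⟨_, t2⟩
    have d1 : c1 • (v : Plane) = a - b := congrArg Subtype.val hc1
    have d2 : c2 • (v : Plane) = a - -b := congrArg Subtype.val hc2
    have f1 := congrArg lam d1
    have f2 := congrArg mu d1
    have f3 := congrArg lam d2
    have f4 := congrArg mu d2
    simp [h.la, h.lb, h.ma, h.mb] at f1 f2 f3 f4
    have g1 : lam v * (c1 * mu v) = - lam v := by rw [f2]; ring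
    have g2 : lam v * (c1 * mu v) = mu v := by
      have : lam v * (c1 * mu v) = (c1 * lam v) * mu v := by ring
      rw [this, f1]; ring
    have g3 : lam v * (c2 * mu v) = lam v := by rw [f4]; ring
    have g4 : lam v * (c2 * mu v) = mu v := by
      have : lam v * (c2 * mu v) = (c2 * lam v) * mu v := by ring
      rw [this, f3]; ring
    have : lam v = 0 := by linarith
    rw [this] at f1
    simp at f1
  -- now the four cases
  have final : ∀ (a' b' : Plane) (lam' mu' : Plane →ₗ[ℝ] ℝ), Coord a' b' lam' mu' →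
      convexHull ℝ ({a', b', -a', -b'} : Set Plane) = convexHull ℝ {a, b, -a, -b} →
      l a' = |l a| → l b' = |l a| → F = segment ℝ a' b' := by
    intro a' b' lam' mu' h' hull e1 e2
    have ldec' : ∀ x, l x = (lam' x + mu' x) * |l a| := by
      intro x
      conv_lhs => rw [h'.dec x]
      simp [e1, e2]
      ring
    have ha' : a' ∈ convexHull ℝ ({a', b', -a', -b'} : Set Plane) :=
      subset_convexHull _ _ (by simp)
    have hb' : b' ∈ convexHull ℝ ({a', b', -a', -b'} : Set Plane) :=
      subset_convexHull _ _ (by simp)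
    ext x
    rw [hmem, ← hull]
    constructor
    · rintro ⟨hx, hmax⟩
      have h1 := hmax a' ha'
      rw [e1, ldec' x] at h1
      have h2 := h'.habs hx
      have h3 := le_abs_self (lam' x)
      have h4 := le_abs_self (mu' x)
      have h7 : 1 ≤ lam' x + mu' x := by
        by_contra h8
        push Not at h8
        nlinarith
      apply h'.mem_segment
      · rw [← abs_eq_self]; linarith
      · rw [← abs_eq_self]; linarith
      · linarith
    · intro hx
      refine ⟨(convex_convexHull ℝ _).segment_subset ha' hb' hx, ?_⟩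
      intro y hy
      rw [ldec' y, ldec' x, (h'.of_segment hx).2.2]
      have := h'.habs hy
      have h1 := le_abs_self (lam' y)
      have h2 := le_abs_self (mu' y)
      nlinarith
  rcases le_total 0 (l a) with sa | sa <;> rcases le_total 0 (l b) with sb | sb
  · left
    exact final a b lam mu h rfl (abs_of_nonneg sa).symm (by rw [hab, abs_of_nonneg sb])
  · right; right; left
    exact final a (-b) lam (-mu) h.neg_right hull_neg_right (abs_of_nonneg sa).symm
      (by rw [hab, abs_of_nonpos sb, map_neg])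
  · right; right; right
    exact final (-a) b (-lam) mu h.neg_left hull_neg_left (by rw [abs_of_nonpos sa, map_neg])
      (by rw [hab, abs_of_nonneg sb])
  · right; left
    refine final (-a) (-b) (-lam) (-mu) h.neg_left.neg_right ?_ (by rw [abs_of_nonpos sa, map_neg])
      (by rw [hab, abs_of_nonpos sb, map_neg])
    rw [hull_neg_right, hull_neg_left]

/-- points with positive coordinates are in the cone over the relative interior of `[a, b]` -/
lemma Coord.mem_cone (h : Coord a b lam mu) {x : Plane} (h1 : 0 < lam x) (h2 : 0 < mu x) :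
    x ∈ ConeRelInt (segment ℝ a b) := by
  have hs : 0 < lam x + mu x := by linarith
  refine ⟨lam x + mu x, hs, (lam x + mu x)⁻¹ • x, ?_, ?_⟩
  · set y := (lam x + mu x)⁻¹ • x with hy
    have y1 : 0 < lam y := by
      rw [hy, map_smul, smul_eq_mul]
      positivity
    have y2 : 0 < mu y := by
      rw [hy, map_smul, smul_eq_mul]
      positivity
    have y3 : lam y + mu y = 1 := by
      rw [hy, map_smul, map_smul, smul_eq_mul, smul_eq_mul, ← mul_add]
      field_simp
    have hyseg : y ∈ segment ℝ a b := h.mem_segment y1.le y2.le y3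
    rw [mem_intrinsicInterior]
    refine ⟨⟨y, subset_affineSpan ℝ _ hyseg⟩, ?_, rfl⟩
    rw [mem_interior]
    refine ⟨{z : affineSpan ℝ (segment ℝ a b) | 0 < lam z ∧ 0 < mu z}, ?_, ?_, ⟨y1, y2⟩⟩
    · rintro ⟨z, hz⟩ ⟨z1, z2⟩
      simp only [Set.mem_preimage]
      simp only at z1 z2
      apply h.mem_segment z1.le z2.le
      rw [← convexHull_pair, affineSpan_convexHull, mem_affineSpan_pair_iff_exists_lineMap_eq] at hz
      obtain ⟨r, rfl⟩ := hz
      rw [AffineMap.lineMap_apply]
      simp [h.la, h.lb, h.ma, h.mb]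
    · apply IsOpen.inter
      · exact isOpen_lt continuous_const
          ((LinearMap.continuous_of_finiteDimensional lam).comp continuous_subtype_val)
      · exact isOpen_lt continuous_const
          ((LinearMap.continuous_of_finiteDimensional mu).comp continuous_subtype_val)
  · rw [smul_smul, mul_inv_cancel₀ hs.ne', one_smul]

lemma Coord.of_cone (h : Coord a b lam mu) {x : Plane} (hx : x ∈ ConeRelInt (segment ℝ a b)) :
    0 ≤ lam x ∧ 0 ≤ mu x := by
  obtain ⟨r, hr, y, hy, rfl⟩ := hx
  obtain ⟨h1, h2, -⟩ := h.of_segment (intrinsicInterior_subset hy)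
  rw [map_smul, map_smul, smul_eq_mul, smul_eq_mul]
  exact ⟨by positivity, by positivity⟩


lemma Coord.a_mem (h : Coord a b lam mu) : a ∈ (convexHull ℝ ({a, b, -a, -b} : Set Plane)) :=
  subset_convexHull _ _ (by simp)

lemma Coord.extreme (h : Coord a b lam mu) :
    a ∈ (convexHull ℝ ({a, b, -a, -b} : Set Plane)).extremePoints ℝ := by
  rw [mem_extremePoints]
  refine ⟨h.a_mem, ?_⟩
  have key : ∀ x ∈ convexHull ℝ ({a, b, -a, -b} : Set Plane), lam x = 1 → x = a := by
    intro x hx h1
    have h2 := h.habs hx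
    rw [h1, abs_one] at h2
    have h3 : mu x = 0 := abs_eq_zero.1 (le_antisymm (by linarith) (abs_nonneg _))
    rw [h.dec x, h1, h3]
    simp
  intro x hx y hy hxy
  obtain ⟨s, t, hs, ht, hst, hsum⟩ := hxy
  have h1 := congrArg lam hsum
  rw [map_add, map_smul, map_smul, h.la, smul_eq_mul, smul_eq_mul] at h1
  have h2 := h.habs hx
  have h3 := h.habs hy
  have h4 := le_abs_self (lam x)
  have h5 := le_abs_self (lam y)
  have h6 := abs_nonneg (mu x)
  have h7 := abs_nonneg (mu y)
  have hx1 : lam x ≤ 1 := by linarith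
  have hy1 : lam y ≤ 1 := by linarith
  have e1 : lam x = 1 := by
    by_contra hne
    have : lam x < 1 := lt_of_le_of_ne hx1 hne
    nlinarith
  have e2 : lam y = 1 := by
    by_contra hne
    have : lam y < 1 := lt_of_le_of_ne hy1 hne
    nlinarith
  exact ⟨key x hx e1, key y hy e2⟩

lemma image_seg (T : Plane →ₗ[ℝ] Plane) (x y : Plane) :
    T '' segment ℝ x y = segment ℝ (T x) (T y) :=
  image_segment ℝ T.toAffineMap x y

lemma neg_seg (x y : Plane) : - segment ℝ x y = segment ℝ (-x) (-y) := by
  have h1 := image_seg (-LinearMap.id) x y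
  simp only [LinearMap.neg_apply, LinearMap.id_apply] at h1
  rw [← h1, ← Set.image_neg_eq_neg]

/-- Normal form of the reflection. -/
lemma normal_form (h2 : Module.finrank ℝ Plane = 2) {P : Set Plane} (hP : IsSymQuadrilateral P) (T : Plane ≃ₗ[ℝ] Plane)
    (hT2 : ∀ x, T (T x) = x) (hTP : (T : Plane →ₗ[ℝ] Plane) '' P = P)
    (hsw : ¬ PreservesFacets P (T : Plane →ₗ[ℝ] Plane)) :
    ∃ (a b : Plane) (lam mu : Plane →ₗ[ℝ] ℝ), Coord a b lam mu ∧
      P = convexHull ℝ {a, b, -a, -b} ∧ T a = a ∧ T b = -b := by
  obtain ⟨a, b, hli, rfl⟩ := hP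
  obtain ⟨lam, mu, h⟩ := exists_coord h2 hli
  have hTP' : T '' (convexHull ℝ ({a, b, -a, -b} : Set Plane)) = convexHull ℝ {a, b, -a, -b} := hTP
  have himg := image_extremePoints (𝕜 := ℝ) T (convexHull ℝ ({a, b, -a, -b} : Set Plane))
  rw [hTP'] at himg
  have ext : ∀ c, c ∈ (convexHull ℝ ({a, b, -a, -b} : Set Plane)).extremePoints ℝ →
      (T c = a ∨ T c = b ∨ T c = -a ∨ T c = -b) := by
    intro c hc
    have h1 : T c ∈ (convexHull ℝ ({a, b, -a, -b} : Set Plane)).extremePoints ℝ := by
      rw [← himg]
      exact Set.mem_image_of_mem _ hc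
    have := extremePoints_convexHull_subset h1
    simpa using this
  have Ta := ext a h.extreme
  have Tb := ext b (by
    have := h.swap.extreme
    rwa [hull_swap] at this)
  have ab1 : a ≠ b := by
    intro h'
    have := congrArg lam h'
    rw [h.la, h.lb] at this
    norm_num at this
  have ab2 : a ≠ -b := by
    intro h'
    have := congrArg lam h'
    rw [h.la, map_neg, h.lb] at this
    norm_num at this
  have a0 : a ≠ -a := by
    intro h'
    have := congrArg lam h'
    rw [map_neg, h.la] at this
    norm_num at this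
  have b0 : b ≠ -b := by
    intro h'
    have := congrArg mu h'
    rw [map_neg, h.mb] at this
    norm_num at this
  have hpres : ((T a = a ∧ T b = b) ∨ (T a = -a ∧ T b = -b) ∨ (T a = b ∧ T b = a) ∨
      (T a = -b ∧ T b = -a)) → False := by
    intro hc
    apply hsw
    intro F hF
    have hF' := h.facet_cases hF
    have e1 : ∀ x y, (T : Plane →ₗ[ℝ] Plane) '' segment ℝ x y = segment ℝ (T x) (T y) :=
      fun x y => image_seg _ x y
    rcases hc with ⟨c1, c2⟩ | ⟨c1, c2⟩ | ⟨c1, c2⟩ | ⟨c1, c2⟩ <;>
      rcases hF' with rfl | rfl | rfl | rfl <;>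
      rw [e1, neg_seg] <;>
      simp only [map_neg, c1, c2, neg_neg] <;>
      first
        | (left; rfl)
        | (right; rfl)
        | (left; exact segment_symm ℝ _ _)
        | (right; exact segment_symm ℝ _ _)
        | (left; trivial)
        | (right; trivial)
  have i1 : ∀ x y, T x = T y → x = y := fun x y hxy => T.injective hxy
  rcases Ta with ta | ta | ta | ta
  · -- T a = a
    rcases Tb with tb | tb | tb | tb
    · exact absurd (i1 _ _ (ta.trans tb.symm)) ab1
    · exact absurd (hpres (Or.inl ⟨ta, tb⟩)) (by simp)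
    · exfalso
      have h1 : T (-b) = a := by rw [map_neg, tb, neg_neg]
      exact ab2 (i1 _ _ (ta.trans h1.symm))
    · exact ⟨a, b, lam, mu, h, rfl, ta, tb⟩
  · -- T a = b
    have tb : T b = a := by rw [← ta, hT2]
    exact absurd (hpres (Or.inr (Or.inr (Or.inl ⟨ta, tb⟩)))) (by simp)
  · -- T a = -a
    rcases Tb with tb | tb | tb | tb
    · exfalso
      have h1 : T (-b) = -a := by rw [map_neg, tb]
      exact ab2 (i1 _ _ (ta.trans h1.symm))
    · exact ⟨b, a, mu, lam, h.swap, hull_swap.symm, tb, ta⟩
    · exfalso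
      exact ab1 (i1 _ _ (ta.trans tb.symm))
    · exact absurd (hpres (Or.inr (Or.inl ⟨ta, tb⟩))) (by simp)
  · -- T a = -b
    have tb : T b = -a := by
      have h1 : b = - T a := by rw [ta, neg_neg]
      conv_lhs => rw [h1]
      rw [map_neg, hT2]
    exact absurd (hpres (Or.inr (Or.inr (Or.inr ⟨ta, tb⟩)))) (by simp)

/-- Facets seen by a difference vector with coordinates of the same sign. -/
lemma Coord.cone_pos (h : Coord a b lam mu) {x : Plane} (hx : 0 < lam x * mu x) :
    (∃ F, IsFacet (convexHull ℝ {a, b, -a, -b}) F ∧ x ∈ ConeRelInt F) ∧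
    ∀ F, IsFacet (convexHull ℝ {a, b, -a, -b}) F → x ∈ ConeRelInt F →
      F = segment ℝ a b ∨ F = segment ℝ (-a) (-b) := by
  constructor
  · rcases pos_and_pos_or_neg_and_neg_of_mul_pos hx with ⟨h1, h2⟩ | ⟨h1, h2⟩
    · exact ⟨_, h.isFacet, h.mem_cone h1 h2⟩
    · refine ⟨segment ℝ (-a) (-b), ?_, h.neg_left.neg_right.mem_cone ?_ ?_⟩
      · have := h.neg_left.neg_right.isFacet
        rwa [hull_neg_right, hull_neg_left] at this
      · simpa using h1
      · simpa using h2
  · intro F hF hxF
    rcases h.facet_cases hF with rfl | rfl | rfl | rfl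
    · exact Or.inl rfl
    · exact Or.inr rfl
    · exfalso
      have := h.neg_right.of_cone hxF
      simp only [LinearMap.neg_apply] at this
      nlinarith [this.1, this.2]
    · exfalso
      have := h.neg_left.of_cone hxF
      simp only [LinearMap.neg_apply] at this
      nlinarith [this.1, this.2]

lemma Coord.cone_neg (h : Coord a b lam mu) {x : Plane} (hx : lam x * mu x < 0) :
    (∃ F, IsFacet (convexHull ℝ {a, b, -a, -b}) F ∧ x ∈ ConeRelInt F) ∧
    ∀ F, IsFacet (convexHull ℝ {a, b, -a, -b}) F → x ∈ ConeRelInt F →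
      F = segment ℝ a (-b) ∨ F = segment ℝ (-a) b := by
  have h1 := h.neg_right.cone_pos (x := x) (by simp only [LinearMap.neg_apply]; linarith)
  rw [hull_neg_right, neg_neg] at h1
  exact h1

/-- the functional of the facets `± [a, b]` -/
lemma Coord.func_pos (h : Coord a b lam mu) (φ : Plane →ₗ[ℝ] ℝ) {F : Set Plane}
    (hF : F = segment ℝ a b ∨ F = segment ℝ (-a) (-b)) (hφ : ∀ x ∈ F, φ x = 1) :
    (∀ x, φ x = lam x + mu x) ∨ (∀ x, φ x = -(lam x + mu x)) := by
  have dec : ∀ x, φ x = lam x * φ a + mu x * φ b := by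
    intro x
    conv_lhs => rw [h.dec x]
    simp
  rcases hF with rfl | rfl
  · left
    intro x
    rw [dec, hφ a (left_mem_segment _ _ _), hφ b (right_mem_segment _ _ _)]
    ring
  · right
    intro x
    have h1 := hφ (-a) (left_mem_segment _ _ _)
    have h2 := hφ (-b) (right_mem_segment _ _ _)
    rw [map_neg] at h1 h2
    have h3 : φ a = -1 := by linarith
    have h4 : φ b = -1 := by linarith
    rw [dec, h3, h4]
    ring

lemma Coord.func_neg (h : Coord a b lam mu) (φ : Plane →ₗ[ℝ] ℝ) {F : Set Plane}
    (hF : F = segment ℝ a (-b) ∨ F = segment ℝ (-a) b) (hφ : ∀ x ∈ F, φ x = 1) :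
    (∀ x, φ x = lam x - mu x) ∨ (∀ x, φ x = -(lam x - mu x)) := by
  have := h.neg_right.func_pos φ (F := F) (by rw [neg_neg]; exact hF) hφ
  simpa [sub_eq_add_neg] using this

/-- existence of the functional for the facets `± [a, b]` -/
lemma Coord.func_ex_pos (h : Coord a b lam mu) {F : Set Plane}
    (hF : F = segment ℝ a b ∨ F = segment ℝ (-a) (-b)) :
    (∀ x ∈ F, (lam + mu) x = 1) ∨ (∀ x ∈ F, (-(lam + mu)) x = 1) := by
  rcases hF with rfl | rfl
  · left
    intro x hx
    exact (h.of_segment hx).2.2
  · right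
    intro x hx
    have := (h.neg_left.neg_right.of_segment hx).2.2
    simp only [LinearMap.neg_apply, LinearMap.add_apply] at this ⊢
    linarith

lemma Coord.func_ex_neg (h : Coord a b lam mu) {F : Set Plane}
    (hF : F = segment ℝ a (-b) ∨ F = segment ℝ (-a) b) :
    (∀ x ∈ F, (lam - mu) x = 1) ∨ (∀ x ∈ F, (-(lam - mu)) x = 1) := by
  have := h.neg_right.func_ex_pos (F := F) (by rw [neg_neg]; exact hF)
  simpa [sub_eq_add_neg] using this

end geometry

section frameworks

open Finset Pool.Agent.Lib.MP_236c69_co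

variable {Plane : Type v} [NormedAddCommGroup Plane] [NormedSpace ℝ Plane]
  [FiniteDimensional ℝ Plane]
variable {V : Type u} [DecidableEq V] [Fintype V] {a b : Plane} {lam mu : Plane →ₗ[ℝ] ℝ}

lemma const_of_forest {T : Finset (Sym2 V)} (hT : Forest T) (hc : T.card + 1 = Fintype.card V)
    (h : V → ℝ) (hh : ∀ u v, s(u, v) ∈ T → h u = h v) (u v : V) : h u = h v := by
  by_contra hne
  set X : Finset V := univ.filter (fun w => h w = h u) with hX
  set Y : Finset V := univ.filter (fun w => ¬ h w = h u) with hY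
  have h1 : X.card + Y.card = Fintype.card V := by
    rw [hX, hY, card_filter_add_card_filter_not, card_univ]
  have h2 : T ⊆ ins T X ∪ ins T Y := by
    intro e
    induction e with
    | _ p q =>
      intro he
      have := hh p q he
      rw [mem_union, mem_ins_mk, mem_ins_mk, hX, hY]
      simp only [mem_filter, mem_univ, true_and]
      by_cases hp : h p = h u
      · left; exact ⟨he, hp, by rw [← this]; exact hp⟩
      · right; exact ⟨he, hp, by rw [← this]; exact hp⟩
  have h3 := (card_le_card h2).trans (card_union_le _ _)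
  have h4 := hT X ⟨u, by rw [hX, mem_filter]; exact ⟨mem_univ _, rfl⟩⟩
  have h5 := hT Y ⟨v, by rw [hY, mem_filter]; exact ⟨mem_univ _, fun h' => hne h'.symm⟩⟩
  omega

lemma exists_nonconst {T : Finset (Sym2 V)} (hc : T.card + 1 < Fintype.card V) :
    ∃ h : V → ℝ, (∀ u v, s(u, v) ∈ T → h u = h v) ∧ ∃ u v, h u ≠ h v := by
  classical
  have hne : Nonempty V := by
    rw [← Fintype.card_pos_iff]
    omega
  set H : SimpleGraph V := SimpleGraph.fromEdgeSet (T : Set (Sym2 V)) with hH
  have hnc : ¬ H.Connected := by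
    intro hcon
    have h1 := hcon.card_vert_le_card_edgeSet_add_one
    have h2 : Nat.card H.edgeSet ≤ T.card := by
      have h3 : H.edgeSet ⊆ (T : Set (Sym2 V)) := by
        rw [hH, SimpleGraph.edgeSet_fromEdgeSet]
        exact Set.sdiff_subset
      have h4 := Set.ncard_le_ncard h3 (Finset.finite_toSet T)
      rw [Set.ncard_coe_finset] at h4
      exact h4
    rw [Nat.card_eq_fintype_card] at h1
    omega
  have hnp : ¬ H.Preconnected := fun hp => hnc ⟨hp⟩
  rw [SimpleGraph.Preconnected] at hnp
  push Not at hnp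
  obtain ⟨x, y, hxy⟩ := hnp
  refine ⟨fun v => if H.Reachable x v then 1 else 0, ?_, x, y, ?_⟩
  · intro u v huv
    by_cases huv' : u = v
    · rw [huv']
    have hadj : H.Adj u v := by
      rw [hH, SimpleGraph.fromEdgeSet_adj]
      exact ⟨huv, huv'⟩
    have : H.Reachable x u ↔ H.Reachable x v :=
      ⟨fun h1 => h1.trans hadj.reachable, fun h1 => h1.trans hadj.symm.reachable⟩
    simp only [this]
  · simp [hxy]

/-- The sum of coordinates of a flex is constant. -/
lemma flex_sum_const (h : Coord a b lam mu) {G : SimpleGraph V} {E : Finset (Sym2 V)}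
    (hE : ∀ e, e ∈ E ↔ e ∈ G.edgeSet) {α β : V → ℝ}
    (hF : Forest (pos E α β)) (hc : (pos E α β).card + 1 = Fintype.card V)
    {u : V → Plane}
    (hu : IsFlex (convexHull ℝ {a, b, -a, -b}) G (fun v => α v • a + β v • b) u) (v w : V) :
    lam (u v) + mu (u v) = lam (u w) + mu (u w) := by
  apply const_of_forest hF hc (fun v => lam (u v) + mu (u v))
  intro x y hxy
  rw [mem_pos, hE] at hxy
  obtain ⟨hadj, hpos⟩ := hxy
  have hadj' : G.Adj x y := hadj
  set d := (α x • a + β x • b) - (α y • a + β y • b) with hd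
  have e1 : lam d * mu d = prd α β s(x, y) := by
    rw [hd, prd_mk]
    simp only [map_sub, map_add, map_smul, h.la, h.lb, h.ma, h.mb, smul_eq_mul]
    ring
  obtain ⟨⟨F, hF1, hF2⟩, hF3⟩ := h.cone_pos (x := d) (by rw [e1]; exact hpos)
  have h1 := hu x y hadj' F hF1 hF2
  rcases h.func_ex_pos (hF3 F hF1 hF2) with hφ | hφ
  · have := h1 _ hφ
    simp only [map_sub, LinearMap.add_apply] at this
    linarith
  · have := h1 _ hφ
    simp only [map_sub, LinearMap.add_apply, LinearMap.neg_apply] at this
    linarith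

/-- Deleting a positive edge destroys rigidity. -/
lemma break_pos (h : Coord a b lam mu) {G : SimpleGraph V} {E : Finset (Sym2 V)}
    (hE : ∀ e, e ∈ E ↔ e ∈ G.edgeSet) {α β : V → ℝ} (hne : ∀ e ∈ E, prd α β e ≠ 0)
    (hc : (pos E α β).card + 1 = Fintype.card V) {e : Sym2 V} (he : e ∈ pos E α β) :
    ¬ InfRigid (convexHull ℝ {a, b, -a, -b}) (G.deleteEdges {e})
      (fun v => α v • a + β v • b) := by
  rintro ⟨-, hrig⟩
  have hc' : ((pos E α β).erase e).card + 1 < Fintype.card V := by
    rw [card_erase_of_mem he]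
    have := card_pos.2 ⟨e, he⟩
    omega
  obtain ⟨g, hg, x, y, hxy⟩ := exists_nonconst hc'
  obtain ⟨c, hc2⟩ := hrig (fun v => g v • (a + b)) (by
    intro v w hvw F hF1 hF2 φ hφ
    rw [SimpleGraph.deleteEdges_adj] at hvw
    obtain ⟨hvw1, hvw2⟩ := hvw
    have hmem : s(v, w) ∈ E := (hE _).2 hvw1
    have hne' : s(v, w) ≠ e := hvw2
    set d := (α v • a + β v • b) - (α w • a + β w • b) with hd
    have e1 : lam d * mu d = prd α β s(v, w) := by
      rw [hd, prd_mk]
      simp only [map_sub, map_add, map_smul, h.la, h.lb, h.ma, h.mb, smul_eq_mul]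
      ring
    rcases lt_or_gt_of_ne (hne _ hmem) with hlt | hgt
    · have h3 := (h.cone_neg (x := d) (by rw [e1]; exact hlt)).2 F hF1 hF2
      have h4 : φ (a + b) = 0 := by
        rcases h.func_neg φ h3 hφ with h5 | h5 <;> rw [h5] <;>
          simp [h.la, h.lb, h.ma, h.mb]
      show φ (g v • (a + b) - g w • (a + b)) = 0
      rw [map_sub, map_smul, map_smul, h4]
      simp
    · have h3 : s(v, w) ∈ (pos E α β).erase e := by
        rw [mem_erase, mem_pos]
        exact ⟨hne', hmem, hgt⟩
      have h4 := hg v w h3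
      show φ (g v • (a + b) - g w • (a + b)) = 0
      rw [h4]
      simp)
  apply hxy
  have h1 := congrArg lam ((hc2 x).trans (hc2 y).symm)
  simp only [map_smul, map_add, h.la, h.lb, smul_eq_mul] at h1
  linarith

end frameworks

/-- **Facet-swapping reflections.** Let `E` be the plane, that is, a real normed space of
dimension two (only its linear structure and topology are used), and let `P` be a centrally
symmetric convex quadrilateral in `E`. If `s` swaps the facets of `P`, `G` is `(2,2)`-tight and no
edge of `G` is fixed by `s`, then `G` has a well-positioned, isostatic, `𝒞ₛ`-symmetric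
placement. -/
theorem result {Plane : Type v} [NormedAddCommGroup Plane] [NormedSpace ℝ Plane]
    (hdim : Module.finrank ℝ Plane = 2) (P : Set Plane) (hP : IsSymQuadrilateral P)
    (V : Type u) [Finite V] (G : SimpleGraph V) (θ : Cs →* (G ≃g G))
    (τ : Representation ℝ Cs Plane) (hτ : Function.Injective τ)
    (hrefl : IsLinearReflection (τ sElt)) (hTP : τ sElt '' P = P)
    (hsw : ¬ PreservesFacets P (τ sElt)) (htight : IsTwoTwoTight G) (hfix : fixedEdges G θ = ∅) :
    ∃ p : V → Plane, WellPositioned P G p ∧ Isostatic P G p ∧ IsCsSymmetric G θ τ p := by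
  classical
  have := Fintype.ofFinite V
  have hfd : FiniteDimensional ℝ Plane := FiniteDimensional.of_finrank_pos (by omega)
  obtain ⟨hcard, hsub⟩ := htight
  have hss : sElt * sElt = 1 := by decide
  have hT2 : Function.Involutive (τ sElt) := by
    intro x
    have h1 : τ sElt * τ sElt = 1 := by rw [← map_mul, hss, map_one]
    have h2 := congrArg (fun g : Plane →ₗ[ℝ] Plane => g x) h1
    simpa using h2
  obtain ⟨a, b, lam, mu, h, rfl, Ta, Tb⟩ := normal_form hdim hP
    (LinearEquiv.ofInvolutive (τ sElt) hT2) hT2 hTP hsw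
  have Ta' : τ sElt a = a := Ta
  have Tb' : τ sElt b = -b := Tb
  -- the combinatorial data
  set s : V → V := fun v => θ sElt v with hs
  have hinv : ∀ v, s (s v) = v := by
    intro v
    have h1 : θ sElt * θ sElt = 1 := by rw [← map_mul, hss, map_one]
    have h2 := congrArg (fun g : G ≃g G => g v) h1
    exact h2
  set E : Finset (Sym2 V) := (Set.toFinite G.edgeSet).toFinset with hEdef
  have hE : ∀ e, e ∈ E ↔ e ∈ G.edgeSet := by
    intro e
    rw [hEdef, Set.Finite.mem_toFinset]
  have hgood : Pool.Agent.Lib.MP_236c69_co.Good E s := by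
    refine ⟨hinv, ?_, ?_, ?_⟩
    · intro u v huv
      rw [hE, SimpleGraph.mem_edgeSet] at huv ⊢
      exact (θ sElt).map_adj_iff.2 huv
    · intro u v huv heq
      rw [hE] at huv
      have : s(u, v) ∈ fixedEdges G θ := ⟨huv, heq⟩
      rw [hfix] at this
      exact this
    · intro X hX
      set H : G.Subgraph := (⊤ : G.Subgraph).induce (X : Set V) with hH
      have h1 := hsub H (by
        obtain ⟨x, hx⟩ := hX
        exact ⟨x, hx⟩)
      have h2 : H.verts.ncard = X.card := by
        rw [hH, SimpleGraph.Subgraph.induce_verts, Set.ncard_coe_finset]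
      have h3 : ((Pool.Agent.Lib.MP_236c69_co.ins E X : Finset (Sym2 V)) : Set (Sym2 V)) ⊆
          H.edgeSet := by
        intro e
        induction e with
        | _ u v =>
          intro he
          rw [Finset.mem_coe, Pool.Agent.Lib.MP_236c69_co.mem_ins_mk, hE,
            SimpleGraph.mem_edgeSet] at he
          rw [SimpleGraph.Subgraph.mem_edgeSet, hH, SimpleGraph.Subgraph.induce_adj]
          exact ⟨he.2.1, he.2.2, he.1⟩
      have h4 := Set.ncard_le_ncard h3 (Set.toFinite _)
      rw [Set.ncard_coe_finset] at h4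
      omega
  obtain ⟨α, β, ha, hb, hne, hF⟩ := Pool.Agent.Lib.MP_236c69_co.core hgood
  have hEcard : E.card + 2 = 2 * Fintype.card V := by
    rw [Nat.card_eq_fintype_card] at hcard
    rw [← hcard, hEdef, Set.ncard_eq_toFinset_card G.edgeSet]
  -- the negative edges
  have hprdneg : ∀ e, Pool.Agent.Lib.MP_236c69_co.prd α (-β) e =
      - Pool.Agent.Lib.MP_236c69_co.prd α β e := by
    intro e
    induction e with
    | _ u v =>
      simp only [Pool.Agent.Lib.MP_236c69_co.prd_mk, Pi.neg_apply]
      ring
  have hprds : ∀ e, Pool.Agent.Lib.MP_236c69_co.prd α β (Sym2.map s e) =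
      - Pool.Agent.Lib.MP_236c69_co.prd α β e := by
    intro e
    induction e with
    | _ u v =>
      simp only [Sym2.map_mk, Pool.Agent.Lib.MP_236c69_co.prd_mk, ha, hb]
      ring
  have hNeq : Pool.Agent.Lib.MP_236c69_co.pos E α (-β) =
      (Pool.Agent.Lib.MP_236c69_co.pos E α β).image (Sym2.map s) := by
    ext e
    rw [Finset.mem_image, Pool.Agent.Lib.MP_236c69_co.mem_pos, hprdneg]
    constructor
    · rintro ⟨h1, h2⟩
      refine ⟨Sym2.map s e, ?_, hgood.map_map e⟩
      rw [Pool.Agent.Lib.MP_236c69_co.mem_pos, hprds]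
      exact ⟨hgood.map_mem h1, h2⟩
    · rintro ⟨f, hf, rfl⟩
      rw [Pool.Agent.Lib.MP_236c69_co.mem_pos] at hf
      rw [hprds, neg_neg]
      exact ⟨hgood.map_mem hf.1, hf.2⟩
  have hinjmap : Function.Injective (Sym2.map s) := by
    intro e f hef
    have := congrArg (Sym2.map s) hef
    rwa [hgood.map_map, hgood.map_map] at this
  have hNcard : (Pool.Agent.Lib.MP_236c69_co.pos E α (-β)).card =
      (Pool.Agent.Lib.MP_236c69_co.pos E α β).card := by
    rw [hNeq, Finset.card_image_of_injective _ hinjmap]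
  have hsplit : (Pool.Agent.Lib.MP_236c69_co.pos E α β).card +
      (Pool.Agent.Lib.MP_236c69_co.pos E α (-β)).card = E.card := by
    rw [← Finset.card_union_of_disjoint]
    · congr 1
      ext e
      rw [Finset.mem_union, Pool.Agent.Lib.MP_236c69_co.mem_pos,
        Pool.Agent.Lib.MP_236c69_co.mem_pos, hprdneg]
      constructor
      · rintro (h1 | h1) <;> exact h1.1
      · intro he
        rcases lt_or_gt_of_ne (hne e he) with h1 | h1
        · right; exact ⟨he, by linarith⟩
        · left; exact ⟨he, h1⟩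
    · rw [Finset.disjoint_left]
      intro e he he'
      rw [Pool.Agent.Lib.MP_236c69_co.mem_pos] at he he'
      rw [hprdneg] at he'
      linarith [he.2, he'.2]
  have hc1 : (Pool.Agent.Lib.MP_236c69_co.pos E α β).card + 1 = Fintype.card V := by omega
  have hc2 : (Pool.Agent.Lib.MP_236c69_co.pos E α (-β)).card + 1 = Fintype.card V := by omega
  have hF2 : Pool.Agent.Lib.MP_236c69_co.Forest (Pool.Agent.Lib.MP_236c69_co.pos E α (-β)) := by
    intro X hX
    have h1 := hF (X.image s) (hX.image s)
    have h2 : (Pool.Agent.Lib.MP_236c69_co.ins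
        (Pool.Agent.Lib.MP_236c69_co.pos E α (-β)) X).card ≤
        (Pool.Agent.Lib.MP_236c69_co.ins
          (Pool.Agent.Lib.MP_236c69_co.pos E α β) (X.image s)).card := by
      apply Finset.card_le_card_of_injOn (Sym2.map s)
      · intro e he
        rw [Finset.mem_coe, Pool.Agent.Lib.MP_236c69_co.mem_ins,
          Pool.Agent.Lib.MP_236c69_co.mem_pos, hprdneg] at he
        rw [Finset.mem_coe, Pool.Agent.Lib.MP_236c69_co.mem_ins,
          Pool.Agent.Lib.MP_236c69_co.mem_pos, hprds]
        refine ⟨⟨hgood.map_mem he.1.1, he.1.2⟩, ?_⟩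
        intro v hv
        rw [Sym2.mem_map] at hv
        obtain ⟨c, hc, rfl⟩ := hv
        exact Finset.mem_image_of_mem _ (he.2 c hc)
      · exact hinjmap.injOn
    rw [hgood.card_image] at h1
    omega
  have hneN : ∀ e ∈ E, Pool.Agent.Lib.MP_236c69_co.prd α (-β) e ≠ 0 := by
    intro e he
    rw [hprdneg]
    exact neg_ne_zero.2 (hne e he)
  have hpeq : (fun v => α v • a + (-β) v • (-b)) = fun v => α v • a + β v • b := by
    funext v
    simp
  have hwp : WellPositioned (convexHull ℝ {a, b, -a, -b}) G (fun v => α v • a + β v • b) := by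
    intro v w hvw
    have hmem : s(v, w) ∈ E := (hE _).2 hvw
    set d := (α v • a + β v • b) - (α w • a + β w • b) with hd
    have e1 : lam d * mu d = Pool.Agent.Lib.MP_236c69_co.prd α β s(v, w) := by
      rw [hd, Pool.Agent.Lib.MP_236c69_co.prd_mk]
      simp only [map_sub, map_add, map_smul, h.la, h.lb, h.ma, h.mb, smul_eq_mul]
      ring
    rcases lt_or_gt_of_ne (hne _ hmem) with h1 | h1
    · exact (h.cone_neg (x := d) (by rw [e1]; exact h1)).1
    · exact (h.cone_pos (x := d) (by rw [e1]; exact h1)).1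
  refine ⟨fun v => α v • a + β v • b, hwp, ⟨⟨hwp, ?_⟩, ?_⟩, ?_⟩
  · intro u hu
    have hV : Nonempty V := by
      rw [← Fintype.card_pos_iff]
      omega
    obtain ⟨v0⟩ := hV
    refine ⟨u v0, fun v => ?_⟩
    have k1 := flex_sum_const h hE hF hc1 hu v v0
    have k2 := flex_sum_const (u := u) h.neg_right hE hF2 hc2 (by
      rw [hpeq, hull_neg_right]
      exact hu) v v0
    simp only [LinearMap.neg_apply] at k2
    have k3 : lam (u v) = lam (u v0) := by linarith
    have k4 : mu (u v) = mu (u v0) := by linarith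
    rw [h.dec (u v), k3, k4, ← h.dec (u v0)]
  · intro e he
    have heE := (hE e).2 he
    rcases lt_or_gt_of_ne (hne e heE) with h1 | h1
    · have := break_pos h.neg_right hE hneN hc2 (e := e) (by
        rw [Pool.Agent.Lib.MP_236c69_co.mem_pos, hprdneg]
        exact ⟨heE, by linarith⟩)
      rwa [hpeq, hull_neg_right] at this
    · exact break_pos h hE hne hc1 (e := e) (by
        rw [Pool.Agent.Lib.MP_236c69_co.mem_pos]
        exact ⟨heE, h1⟩)
  · intro v
    show α (s v) • a + β (s v) • b = τ sElt (α v • a + β v • b)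
    rw [ha, hb, map_add, map_smul, map_smul, Ta', Tb']
    simp

end Pool.Agent.Results.MP_236c69_co.FacetSwap
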